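import Mathlib

/-!
# Pointwise periodic `C¹` maps of plane domains are periodic
-/

set_option autoImplicit false

open Set Filter Topology Function Metric

namespace Pool.Agent.Helper40.PP

section general

variable {E : Type*} [NormedAddCommGroup E] [NormedSpace ℝ E]

/-- Averaging: near a fixed point with derivative one, points that are periodic of period `j` are
fixed. -/
theorem averaging [CompleteSpace E] {S : E → E} {f : E}
    (hS : HasStrictFDerivAt S (ContinuousLinearMap.id ℝ E) f) (hf : S f = f) {j : ℕ} (hj : 0 < j) :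
    ∀ᶠ x in 𝓝 f, S^[j] x = x → S x = x := by
  -- the average
  set ψ : E → E := fun x => (j : ℝ)⁻¹ • ∑ i ∈ Finset.range j, S^[i] x with hψ
  have h1 : ∀ i, HasStrictFDerivAt (S^[i]) (ContinuousLinearMap.id ℝ E) f := by
    intro i
    have := hS.iterate hf i
    have e : (ContinuousLinearMap.id ℝ E) ^ i = ContinuousLinearMap.id ℝ E := one_pow i
    rwa [e] at this
  have h2 : HasStrictFDerivAt ψ ((ContinuousLinearEquiv.refl ℝ E : E →L[ℝ] E)) f := by
    have h3 : HasStrictFDerivAt (fun x => ∑ i ∈ Finset.range j, S^[i] x)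
        (∑ _i ∈ Finset.range j, ContinuousLinearMap.id ℝ E) f :=
      HasStrictFDerivAt.fun_sum fun i _ => h1 i
    have h4 := h3.const_smul ((j : ℝ)⁻¹)
    have e : (j : ℝ)⁻¹ • (∑ _i ∈ Finset.range j, ContinuousLinearMap.id ℝ E) =
        ((ContinuousLinearEquiv.refl ℝ E : E →L[ℝ] E)) := by
      ext v
      have : (j : ℝ) ≠ 0 := by positivity
      simp [Finset.sum_const, ← Nat.cast_smul_eq_nsmul ℝ, smul_smul, this]
    rw [e] at h4
    exact h4
  obtain ⟨s, hs, hinj⟩ : ∃ s ∈ 𝓝 f, InjOn ψ s := by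
    refine ⟨(h2.toOpenPartialHomeomorph ψ).source,
      (h2.toOpenPartialHomeomorph ψ).open_source.mem_nhds h2.mem_toOpenPartialHomeomorph_source, ?_⟩
    have := (h2.toOpenPartialHomeomorph ψ).injOn
    rwa [h2.toOpenPartialHomeomorph_coe] at this
  have hc : ∀ᶠ x in 𝓝 f, S x ∈ s := by
    have := hS.hasFDerivAt.continuousAt
    have h5 : Tendsto S (𝓝 f) (𝓝 f) := by
      have := this.tendsto
      rwa [hf] at this
    exact h5.eventually hs
  filter_upwards [hs, hc] with x hx hSx hper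
  refine hinj hSx hx ?_
  simp only [hψ]
  congr 1
  have e1 : ∀ i, S^[i] (S x) = S^[i + 1] x := fun i => (iterate_succ_apply S i x).symm
  simp only [e1]
  have e2 := Finset.sum_range_succ' (fun i => S^[i] x) j
  have e3 := Finset.sum_range_succ (fun i => S^[i] x) j
  rw [e2] at e3
  simp only [iterate_zero, id_eq, hper] at e3
  exact add_right_cancel e3

/-- A punctured ball is connected. -/
theorem isPreconnected_punctured (hr : 1 < Module.rank ℝ E) (x : E) (r : ℝ) :
    IsPreconnected (ball x r \ {x}) := by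
  have h1 : IsPreconnected ((Ioo 0 r : Set ℝ) ×ˢ (sphere (0 : E) 1)) :=
    isPreconnected_Ioo.prod (isPreconnected_sphere hr 0 1)
  have h2 := h1.image (fun q : ℝ × E => x + q.1 • q.2) (by fun_prop)
  convert h2 using 1
  ext y
  simp only [mem_diff, mem_ball, mem_singleton_iff, mem_image, mem_prod, mem_Ioo,
    mem_sphere_iff_norm, sub_zero, Prod.exists]
  constructor
  · rintro ⟨hy, hne⟩
    have hpos : 0 < ‖y - x‖ := norm_pos_iff.mpr (sub_ne_zero.mpr hne)
    refine ⟨‖y - x‖, ‖y - x‖⁻¹ • (y - x), ⟨⟨hpos, by rwa [dist_eq_norm] at hy⟩, ?_⟩, ?_⟩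
    · rw [norm_smul, norm_inv, norm_norm, inv_mul_cancel₀ hpos.ne']
    · rw [smul_smul, mul_inv_cancel₀ hpos.ne', one_smul]; abel
  · rintro ⟨t, u, ⟨⟨ht0, htr⟩, hu⟩, rfl⟩
    refine ⟨?_, ?_⟩
    · rw [dist_eq_norm, add_sub_cancel_left, norm_smul, hu, mul_one, Real.norm_of_nonneg ht0.le]
      exact htr
    · intro h
      have : t • u = 0 := by simpa using h
      rcases smul_eq_zero.mp this with h | h
      · exact ht0.ne' h
      · rw [h, norm_zero] at hu; exact zero_ne_one hu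

/-- Iterates of a map of an open set. -/
theorem contDiffOn_iterate {Om : Set E} {G : E → E} (hm : MapsTo G Om Om)
    (hG : ContDiffOn ℝ 1 G Om) (n : ℕ) : ContDiffOn ℝ 1 (G^[n]) Om := by
  induction n with
  | zero => simpa using contDiffOn_id
  | succ n ih =>
    rw [iterate_succ']
    exact hG.comp ih (hm.iterate n)

/-- The condition `G^n = id` near a point spreads over connected sets of points where some
iterate is locally the identity. -/
theorem spread [CompleteSpace E] {Om : Set E} (ho : IsOpen Om) {G : E → E} (hm : MapsTo G Om Om)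
    (hG : ContDiffOn ℝ 1 G Om) {C : Set E} (hC : IsPreconnected C) (hCo : C ⊆ Om)
    (hU : ∀ z ∈ C, ∃ m, 1 ≤ m ∧ ∀ᶠ y in 𝓝 z, G^[m] y = y) {n : ℕ} {z₀ : E} (hz₀ : z₀ ∈ C)
    (hn : ∀ᶠ y in 𝓝 z₀, G^[n] y = y) : ∀ z ∈ C, ∀ᶠ y in 𝓝 z, G^[n] y = y := by
  set W : Set E := {z | ∀ᶠ y in 𝓝 z, G^[n] y = y} with hW
  have hWo : IsOpen W := isOpen_setOfPred_eventually_nhds
  have hS := contDiffOn_iterate hm hG n
  refine hC.subset_of_closure_inter_subset hWo ⟨z₀, hz₀, hn⟩ ?_
  rintro z ⟨hz, hzC⟩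
  have hzO := hCo hzC
  obtain ⟨m, hm1, hm2⟩ := hU z hzC
  have hfreq : ∃ᶠ y in 𝓝 z, y ∈ W := mem_closure_iff_frequently.mp hz
  have hSz : ContDiffAt ℝ 1 (G^[n]) z := hS.contDiffAt (ho.mem_nhds hzO)
  -- `z` is fixed
  have hfix : G^[n] z = z := by
    by_contra hne
    have h1 : ∀ᶠ y in 𝓝 z, G^[n] y ≠ y := by
      have := hSz.continuousAt.prodMk continuousAt_id
      exact this.eventually (isOpen_ne_fun continuous_fst continuous_snd |>.mem_nhds hne)
    obtain ⟨y, hy1, hy2⟩ := (hfreq.and_eventually h1).exists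
    exact hy2 (hy1.self_of_nhds)
  have hder : fderiv ℝ (G^[n]) z = ContinuousLinearMap.id ℝ E := by
    by_contra hne
    have hcont : ContinuousAt (fderiv ℝ (G^[n])) z :=
      (hSz.fderiv_right (m := 0) (by norm_num)).continuousAt
    have h1 : ∀ᶠ y in 𝓝 z, fderiv ℝ (G^[n]) y ≠ ContinuousLinearMap.id ℝ E :=
      hcont.eventually_ne hne
    obtain ⟨y, hy1, hy2⟩ := (hfreq.and_eventually h1).exists
    apply hy2
    have : G^[n] =ᶠ[𝓝 y] id := hy1
    rw [this.fderiv_eq, fderiv_id]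
  have hst : HasStrictFDerivAt (G^[n]) (ContinuousLinearMap.id ℝ E) z := by
    have := hSz.hasStrictFDerivAt (by norm_num)
    rwa [hder] at this
  have hav := averaging hst hfix (j := m) hm1
  filter_upwards [hav, hm2] with y hy hy2
  apply hy
  rw [← iterate_mul, mul_comm, iterate_mul]
  exact (show IsFixedPt (G^[m]) y from hy2).iterate n

end general

/-! ### Linear algebra in the plane -/

theorem matrix_eq_one {M : Matrix (Fin 2) (Fin 2) ℝ} (hdet : 0 < M.det) {v : Fin 2 → ℝ}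
    (hv : v ≠ 0) (hMv : M.mulVec v = v) {n : ℕ} (hn : 1 ≤ n) (hMn : M ^ n = 1) : M = 1 := by
  have hd1 : M.det = 1 := by
    have h1 : M.det ^ n = 1 := by rw [← Matrix.det_pow, hMn, Matrix.det_one]
    exact (pow_eq_one_iff_of_nonneg hdet.le (by omega)).mp h1
  have h0 : (M - 1).det = 0 := by
    apply Matrix.exists_mulVec_eq_zero_iff.mp
    exact ⟨v, hv, by rw [Matrix.sub_mulVec, hMv, Matrix.one_mulVec, sub_self]⟩
  have e00 : M 0 0 + M 1 1 = 2 := by
    rw [Matrix.det_fin_two] at hd1 h0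
    simp only [Matrix.sub_apply, Matrix.one_apply_eq, ne_eq, zero_ne_one, not_false_eq_true,
      Matrix.one_apply_ne, sub_zero, one_ne_zero] at h0
    linarith
  have hsq : (M - 1) * (M - 1) = 0 := by
    rw [Matrix.det_fin_two] at hd1
    ext a b
    fin_cases a <;> fin_cases b <;> simp [Matrix.mul_apply, Fin.sum_univ_two]
    · linear_combination M 0 0 * e00 - hd1
    · linear_combination M 0 1 * e00
    · linear_combination M 1 0 * e00
    · linear_combination M 1 1 * e00 - hd1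
  have hpow : ∀ k : ℕ, M ^ k = 1 + (k : ℝ) • (M - 1) := by
    intro k
    induction k with
    | zero => simp
    | succ k ih =>
      have e : M = 1 + (M - 1) := by abel
      rw [pow_succ, ih]
      conv_lhs => rw [e]
      rw [mul_add, add_mul, add_mul, mul_one, one_mul]
      have : ((k : ℝ) • ((1 : Matrix (Fin 2) (Fin 2) ℝ) + (M - 1) - 1)) * (M - 1) = 0 := by
        rw [add_sub_cancel_left, smul_mul_assoc, hsq, smul_zero]
      rw [this]
      push_cast
      rw [add_smul, one_smul, add_sub_cancel_left, mul_one]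
      abel
  have h2 := hpow n
  rw [hMn] at h2
  have h3 : (n : ℝ) • (M - 1) = 0 := by
    have := congrArg (fun A => A - 1) h2
    simp only [sub_self, add_sub_cancel_left] at this
    exact this.symm
  rcases smul_eq_zero.mp h3 with h | h
  · have : (n : ℝ) ≠ 0 := by positivity
    exact absurd h this
  · exact sub_eq_zero.mp h

variable {E : Type*} [NormedAddCommGroup E] [NormedSpace ℝ E]

theorem linear_eq_id (h2 : Module.finrank ℝ E = 2) {L : E →L[ℝ] E} (hdet : 0 < L.det) {v : E}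
    (hv : v ≠ 0) (hLv : L v = v) {n : ℕ} (hn : 1 ≤ n) (hLn : L ^ n = 1) :
    L = ContinuousLinearMap.id ℝ E := by
  haveI : FiniteDimensional ℝ E := Module.finite_of_finrank_eq_succ h2
  let b : Module.Basis (Fin 2) ℝ E := (Module.finBasis ℝ E).reindex (finCongr h2)
  set M := LinearMap.toMatrix b b (L : E →ₗ[ℝ] E) with hM
  have hMd : M.det = L.det := by
    rw [hM, LinearMap.det_toMatrix]
  have hMv : M.mulVec (b.repr v) = b.repr v := by
    rw [hM, LinearMap.toMatrix_mulVec_repr, ContinuousLinearMap.coe_coe, hLv]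
  have hv' : (b.repr v : Fin 2 → ℝ) ≠ 0 := by
    intro h
    apply hv
    have : b.repr v = 0 := by
      ext i
      exact congrFun h i
    exact (LinearEquiv.map_eq_zero_iff b.repr).mp this
  have hMn : M ^ n = 1 := by
    rw [hM, LinearMap.toMatrix_pow]
    have : (L : E →ₗ[ℝ] E) ^ n = 1 := by
      have h := congrArg (fun A : E →L[ℝ] E => (A : E →ₗ[ℝ] E)) hLn
      simpa using h
    rw [this, LinearMap.toMatrix_one]
  have h1 := matrix_eq_one (by rw [hMd]; exact hdet) hv' hMv hn hMn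
  have h3 : (L : E →ₗ[ℝ] E) = LinearMap.id := by
    apply (LinearMap.toMatrix b b).injective
    rw [← hM, h1, LinearMap.toMatrix_id]
  ext x
  exact LinearMap.congr_fun h3 x

/-! ### The determinant along iterates -/

theorem det_iterate_ne_zero {Om : Set E} (ho : IsOpen Om) {G : E → E}
    (hm : MapsTo G Om Om) (hG : ContDiffOn ℝ 1 G Om) (hdet : ∀ x ∈ Om, (fderiv ℝ G x).det ≠ 0)
    (k : ℕ) : ∀ x ∈ Om, (fderiv ℝ (G^[k]) x).det ≠ 0 := by
  induction k with
  | zero =>
    intro x _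
    rw [iterate_zero, fderiv_id]
    simp [ContinuousLinearMap.det]
  | succ k ih =>
    intro x hx
    rw [iterate_succ]
    have hGx : DifferentiableAt ℝ G x := (hG.contDiffAt (ho.mem_nhds hx)).differentiableAt
      (by norm_num)
    have hkx : DifferentiableAt ℝ (G^[k]) (G x) :=
      ((contDiffOn_iterate hm hG k).contDiffAt (ho.mem_nhds (hm hx))).differentiableAt
        (by norm_num)
    rw [fderiv_comp x hkx hGx]
    change LinearMap.det ((fderiv ℝ G^[k] (G x) : E →ₗ[ℝ] E) ∘ₗ (fderiv ℝ G x : E →ₗ[ℝ] E)) ≠ 0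
    rw [LinearMap.det_comp]
    exact mul_ne_zero (ih _ (hm hx)) (hdet x hx)

theorem det_mul_pos [FiniteDimensional ℝ E] {Om : Set E} (ho : IsOpen Om)
    (hc : IsPreconnected Om) {H : E → E} (hH : ContDiffOn ℝ 1 H Om)
    (hdet : ∀ x ∈ Om, (fderiv ℝ H x).det ≠ 0) {x y : E} (hx : x ∈ Om) (hy : y ∈ Om) :
    0 < (fderiv ℝ H x).det * (fderiv ℝ H y).det := by
  have hcont : ContinuousOn (fun z => (fderiv ℝ H z).det) Om :=
    ContinuousLinearMap.continuous_det.comp_continuousOn
      (hH.continuousOn_fderiv_of_isOpen ho (by norm_num))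
  have key : ∀ {a b : E}, a ∈ Om → b ∈ Om → (fderiv ℝ H a).det < 0 → 0 < (fderiv ℝ H b).det →
      False := by
    intro a b ha hb h1 h2
    obtain ⟨z, hz, hz0⟩ := hc.intermediate_value ha hb hcont ⟨h1.le, h2.le⟩
    exact hdet z hz hz0
  rcases lt_or_gt_of_ne (hdet x hx) with h1 | h1 <;> rcases lt_or_gt_of_ne (hdet y hy) with h2 | h2
  · exact mul_pos_of_neg_of_neg h1 h2
  · exact (key hx hy h1 h2).elim
  · exact (key hy hx h2 h1).elim
  · exact mul_pos h1 h2

/-- At a fixed point that is a limit of fixed points the derivative has a fixed vector. -/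
theorem exists_fixed_vector [FiniteDimensional ℝ E] {S : E → E} {L : E →L[ℝ] E} {f : E}
    (hS : HasFDerivAt S L f) (hf : S f = f) (hfr : ∃ᶠ y in 𝓝[≠] f, S y = y) :
    ∃ v, v ≠ 0 ∧ L v = v := by
  by_contra hcon
  push Not at hcon
  set T : E →ₗ[ℝ] E := (L : E →ₗ[ℝ] E) - LinearMap.id with hT
  have hker : LinearMap.ker T = ⊥ := by
    rw [LinearMap.ker_eq_bot']
    intro v hv
    by_contra hne
    exact hcon v hne (by simpa [hT, sub_eq_zero] using hv)
  obtain ⟨K, hK, hanti⟩ := T.exists_antilipschitzWith hker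
  have hlo := hS.isLittleO.def (c := (K : ℝ)⁻¹ / 2) (by positivity)
  have hlo' : ∀ᶠ y in 𝓝[≠] f, ‖S y - S f - L (y - f)‖ ≤ (K : ℝ)⁻¹ / 2 * ‖y - f‖ :=
    hlo.filter_mono nhdsWithin_le_nhds
  obtain ⟨y, hy, hylo, hyne⟩ :=
    (hfr.and_eventually (hlo'.and (eventually_mem_nhdsWithin))).exists
  rw [hy, hf] at hylo
  have h1 : ‖y - f‖ ≤ K * ‖T (y - f)‖ := by
    have := hanti.le_mul_dist (y - f) 0
    simpa [dist_eq_norm] using this
  have h2 : ‖T (y - f)‖ = ‖y - f - L (y - f)‖ := by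
    rw [← norm_neg]
    congr 1
    simp [hT]
  have h3 : 0 < ‖y - f‖ := norm_pos_iff.mpr (sub_ne_zero.mpr hyne)
  rw [h2] at h1
  have hKpos : (0 : ℝ) < K := hK
  have h4 : K * ‖y - f - L (y - f)‖ ≤ K * ((K : ℝ)⁻¹ / 2 * ‖y - f‖) :=
    mul_le_mul_of_nonneg_left hylo hKpos.le
  have h5 : K * ((K : ℝ)⁻¹ / 2 * ‖y - f‖) = ‖y - f‖ / 2 := by field_simp
  linarith

/-- **Pointwise periodic `C¹` diffeomorphisms of connected plane domains are periodic.** -/
theorem exists_iterate_eq (h2 : Module.finrank ℝ E = 2) {Om : Set E} (ho : IsOpen Om)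
    (hc : IsPreconnected Om) {G : E → E} (hm : MapsTo G Om Om) (hG : ContDiffOn ℝ 1 G Om)
    (hdet : ∀ x ∈ Om, (fderiv ℝ G x).det ≠ 0)
    (hper : ∀ x ∈ Om, ∃ n, 1 ≤ n ∧ G^[n] x = x) :
    ∃ n, 1 ≤ n ∧ ∀ x ∈ Om, G^[n] x = x := by
  haveI : FiniteDimensional ℝ E := Module.finite_of_finrank_eq_succ h2
  haveI : Nontrivial E := Module.nontrivial_of_finrank_pos (R := ℝ) (by omega)
  haveI : ProperSpace E := FiniteDimensional.proper ℝ E
  haveI : CompleteSpace E := FiniteDimensional.complete ℝ E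
  have hrank : 1 < Module.rank ℝ E := by
    rw [← Module.finrank_eq_rank, h2]
    norm_num
  set U : Set E := {z | z ∈ Om ∧ ∃ n, 1 ≤ n ∧ ∀ᶠ y in 𝓝 z, G^[n] y = y} with hU
  have hUo : IsOpen U := by
    rw [isOpen_iff_mem_nhds]
    rintro z ⟨hz, n, hn, hev⟩
    filter_upwards [ho.mem_nhds hz, eventually_eventually_nhds.mpr hev] with y h1 h2
    exact ⟨h1, n, hn, h2⟩
  -- it is enough that `Om ⊆ U`
  suffices hsub : Om ⊆ U by
    rcases Om.eq_empty_or_nonempty with he | ⟨x₀, hx₀⟩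
    · exact ⟨1, le_rfl, by rw [he]; simp⟩
    · obtain ⟨-, n, hn, hev⟩ := hsub hx₀
      exact ⟨n, hn, fun x hx => (spread ho hm hG hc subset_rfl (fun z hz => (hsub hz).2) hx₀ hev x
        hx).self_of_nhds⟩
  by_contra hnot
  obtain ⟨a, haO, haU⟩ := not_subset.mp hnot
  set K : Set E := Om \ U with hK
  have haK : a ∈ K := ⟨haO, haU⟩
  have hKlc : IsLocallyClosed K := ho.isLocallyClosed.inter hUo.isClosed_compl.isLocallyClosed
  haveI : LocallyCompactSpace K := hKlc.locallyCompactSpace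
  haveI : Nonempty K := ⟨⟨a, haK⟩⟩
  -- Baire
  obtain ⟨n, hn⟩ := nonempty_interior_of_iUnion_of_closed
    (f := fun n : ℕ => {x : K | G^[n + 1] (x : E) = x})
    (fun n => by
      have hcn : ContinuousOn (G^[n + 1]) K :=
        (contDiffOn_iterate hm hG (n + 1)).continuousOn.mono diff_subset
      exact isClosed_eq (continuousOn_iff_continuous_restrict.mp hcn) continuous_subtype_val)
    (by
      rw [eq_univ_iff_forall]
      intro x
      obtain ⟨n, hn, hx⟩ := hper x x.2.1
      rw [mem_iUnion]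
      refine ⟨n - 1, ?_⟩
      change G^[n - 1 + 1] (x : E) = x
      rwa [Nat.sub_add_cancel hn])
  obtain ⟨f₀, hf₀⟩ := hn
  obtain ⟨O, hOo, hOeq⟩ := isOpen_induced_iff.mp (isOpen_interior (s := {x : K | G^[n + 1] (x : E) = x}))
  have hf₀O : (f₀ : E) ∈ O := by
    have : f₀ ∈ Subtype.val ⁻¹' O := by rw [hOeq]; exact hf₀
    exact this
  obtain ⟨r, hr, hrsub⟩ := Metric.isOpen_iff.mp (hOo.inter ho) f₀ ⟨hf₀O, f₀.2.1⟩
  set V : Set E := ball (f₀ : E) r with hV
  have hVO : V ⊆ Om := fun x hx => (hrsub hx).2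
  have hVo : IsOpen V := isOpen_ball
  have hf₀V : (f₀ : E) ∈ V := mem_ball_self hr
  have hfixn : ∀ x ∈ V, x ∈ K → G^[n + 1] x = x := by
    intro x hxV hxK
    have h1 : (⟨x, hxK⟩ : K) ∈ Subtype.val ⁻¹' O := (hrsub hxV).1
    rw [hOeq] at h1
    have h3 : (⟨x, hxK⟩ : K) ∈ {x : K | G^[n + 1] (x : E) = x} := interior_subset h1
    exact h3
  set N := (n + 1) * 2 with hN
  have hN1 : 1 ≤ N := by omega
  set S := G^[N] with hS
  have hSK : ∀ x ∈ V, x ∈ K → S x = x := by
    intro x hxV hxK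
    rw [hS, hN, iterate_mul]
    exact (show IsFixedPt (G^[n + 1]) x from hfixn x hxV hxK).iterate 2
  have hSC : ContDiffOn ℝ 1 S Om := contDiffOn_iterate hm hG N
  have hSm : MapsTo S Om Om := hm.iterate N
  have hSdet : ∀ x ∈ Om, 0 < (fderiv ℝ S x).det := by
    intro x hx
    have hH := contDiffOn_iterate hm hG (n + 1)
    have e : S = G^[n + 1] ∘ G^[n + 1] := by
      rw [hS, hN, iterate_mul]
      rfl
    have hHx : DifferentiableAt ℝ (G^[n + 1]) x :=
      (hH.contDiffAt (ho.mem_nhds hx)).differentiableAt (by norm_num)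
    have hHHx : DifferentiableAt ℝ (G^[n + 1]) (G^[n + 1] x) :=
      (hH.contDiffAt (ho.mem_nhds (hm.iterate _ hx))).differentiableAt (by norm_num)
    rw [e, fderiv_comp x hHHx hHx]
    change 0 < LinearMap.det ((fderiv ℝ G^[n + 1] (G^[n + 1] x) : E →ₗ[ℝ] E) ∘ₗ
      (fderiv ℝ G^[n + 1] x : E →ₗ[ℝ] E))
    rw [LinearMap.det_comp]
    exact det_mul_pos ho hc hH (det_iterate_ne_zero ho hm hG hdet (n + 1)) (hm.iterate _ hx) hx
  -- points of `K` in `V` are not isolated, so the derivative has a fixed vector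
  have hvec : ∀ f ∈ V, f ∈ K → ∃ v, v ≠ 0 ∧ fderiv ℝ S f v = v := by
    intro f hfV hfK
    have hfO := hVO hfV
    refine exists_fixed_vector (((hSC.contDiffAt (ho.mem_nhds hfO)).differentiableAt
      (by norm_num)).hasFDerivAt) (hSK f hfV hfK) ?_
    have hfr : ∃ᶠ y in 𝓝[≠] f, y ∈ K := by
      intro hnev
      obtain ⟨ε, hε, hεsub⟩ := Metric.mem_nhdsWithin_iff.mp hnev
      obtain ⟨δ, hδ, hδsub⟩ := Metric.isOpen_iff.mp ho f hfO
      set ρ := min ε δ with hρ
      have hρ0 : 0 < ρ := lt_min hε hδ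
      have hCU : ∀ y ∈ ball f ρ \ {f}, y ∈ U := by
        rintro y ⟨hy, hyne⟩
        have h1 : y ∉ K := hεsub ⟨ball_subset_ball (min_le_left _ _) hy, hyne⟩
        have h2 : y ∈ Om := hδsub (ball_subset_ball (min_le_right _ _) hy)
        by_contra h3
        exact h1 ⟨h2, h3⟩
      have hev : ∀ᶠ y in 𝓝[≠] f, y ∈ ball f ρ \ {f} := by
        rw [sdiff_eq, inter_comm]
        exact inter_mem_nhdsWithin _ (ball_mem_nhds f hρ0)
      obtain ⟨z₀, hz₀⟩ := hev.exists
      obtain ⟨-, m, hm1, hm2⟩ := hCU z₀ hz₀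
      have hall := spread ho hm hG (isPreconnected_punctured hrank f ρ)
        (fun y hy => (hCU y hy).1) (fun y hy => (hCU y hy).2) hz₀ hm2
      have hfix : G^[m] f = f := by
        have hcf : Tendsto (G^[m]) (𝓝[≠] f) (𝓝 (G^[m] f)) :=
          (((contDiffOn_iterate hm hG m).contDiffAt (ho.mem_nhds hfO)).continuousAt.tendsto).mono_left
            nhdsWithin_le_nhds
        have h1 : G^[m] =ᶠ[𝓝[≠] f] id := by
          filter_upwards [hev] with y hy
          exact (hall y hy).self_of_nhds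
        have h2 : Tendsto (G^[m]) (𝓝[≠] f) (𝓝 f) := by
          rw [tendsto_congr' h1]
          exact nhdsWithin_le_nhds
        exact tendsto_nhds_unique hcf h2
      apply hfK.2
      refine ⟨hfO, m, hm1, ?_⟩
      filter_upwards [ball_mem_nhds f hρ0] with y hy
      by_cases hyf : y = f
      · rw [hyf]; exact hfix
      · exact (hall y ⟨hy, hyf⟩).self_of_nhds
    have hV' : ∀ᶠ y in 𝓝[≠] f, y ∈ V := nhdsWithin_le_nhds (hVo.mem_nhds hfV)
    exact (hfr.and_eventually hV').mono fun y hy => hSK y hy.2 hy.1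
  -- `S` is the identity near the points of `U` in `V`
  have hloc : ∀ z ∈ V, z ∈ U → ∀ᶠ y in 𝓝 z, S y = y := by
    intro z hzV hzU
    set C := connectedComponentIn U z with hC
    have hCo : IsOpen C := hUo.connectedComponentIn
    have hCp : IsPreconnected C := isPreconnected_connectedComponentIn
    have hCU : C ⊆ U := connectedComponentIn_subset U z
    have hzC : z ∈ C := mem_connectedComponentIn hzU
    obtain ⟨-, n₀, hn₀, hev₀⟩ := hzU
    have hall := spread ho hm hG hCp (fun y hy => (hCU hy).1) (fun y hy => (hCU hy).2) hzC hev₀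
    -- a frontier point of `C` in `V`
    obtain ⟨f, hfV, hfcl, hfU⟩ : ∃ f ∈ V, f ∈ closure C ∧ f ∉ U := by
      by_contra hcon
      push Not at hcon
      have h1 : closure C ∩ V ⊆ C := by
        rintro f ⟨hfcl, hfV⟩
        have hfU := hcon f hfV hfcl
        have h2 : IsOpen (connectedComponentIn U f) := hUo.connectedComponentIn
        obtain ⟨w, hw1, hw2⟩ := mem_closure_iff.mp hfcl _ h2 (mem_connectedComponentIn hfU)
        have h3 : connectedComponentIn U w = connectedComponentIn U f :=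
          (connectedComponentIn_eq hw1).symm
        have h4 : connectedComponentIn U w = C := (connectedComponentIn_eq hw2).symm
        rw [← h4, h3]
        exact mem_connectedComponentIn hfU
      have h5 : V ⊆ C := (isPreconnected_ball).subset_of_closure_inter_subset hCo ⟨z, hzV, hzC⟩ h1
      exact f₀.2.2 (hCU (h5 hf₀V))
    have hfO := hVO hfV
    have hfK : f ∈ K := ⟨hfO, hfU⟩
    have hSf := hSK f hfV hfK
    have hSfd : ContDiffAt ℝ 1 S f := hSC.contDiffAt (ho.mem_nhds hfO)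
    obtain ⟨v, hv, hLv⟩ := hvec f hfV hfK
    -- the iterates of `S` on `C`
    have hSn : ∀ w ∈ C, ∀ᶠ y in 𝓝 w, S^[n₀] y = y := by
      intro w hw
      filter_upwards [hall w hw] with y hy
      rw [hS, ← iterate_mul, mul_comm, iterate_mul]
      exact (show IsFixedPt (G^[n₀]) y from hy).iterate N
    have hSnC : ContDiffOn ℝ 1 (S^[n₀]) Om := contDiffOn_iterate hSm hSC n₀
    have hpow : (fderiv ℝ S f) ^ n₀ = 1 := by
      have h1 : fderiv ℝ (S^[n₀]) f = (fderiv ℝ S f) ^ n₀ :=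
        ((hSfd.differentiableAt (by norm_num)).hasFDerivAt.iterate hSf n₀).fderiv
      rw [← h1]
      by_contra hne
      have hcont : ContinuousAt (fderiv ℝ (S^[n₀])) f :=
        ((hSnC.contDiffAt (ho.mem_nhds hfO)).fderiv_right (m := 0) (by norm_num)).continuousAt
      have h2 : ∀ᶠ y in 𝓝 f, fderiv ℝ (S^[n₀]) y ≠ 1 := hcont.eventually_ne hne
      obtain ⟨y, hy1, hy2⟩ :=
        ((mem_closure_iff_frequently.mp hfcl).and_eventually h2).exists
      apply hy2
      have h3 : S^[n₀] =ᶠ[𝓝 y] id := hSn y hy1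
      rw [h3.fderiv_eq, fderiv_id]
      rfl
    have hL := linear_eq_id h2 (hSdet f hfO) hv hLv hn₀ hpow
    have hst : HasStrictFDerivAt S (ContinuousLinearMap.id ℝ E) f := by
      have := hSfd.hasStrictFDerivAt (by norm_num)
      rwa [hL] at this
    have hav := averaging hst hSf (j := n₀) hn₀
    obtain ⟨x, hx1, hx2⟩ := ((mem_closure_iff_frequently.mp hfcl).and_eventually
      (eventually_eventually_nhds.mpr hav)).exists
    have hx3 : ∀ᶠ y in 𝓝 x, G^[N] y = y := by
      filter_upwards [hx2, hSn x hx1] with y h1 h2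
      exact h1 h2
    exact spread ho hm hG hCp (fun y hy => (hCU hy).1) (fun y hy => (hCU hy).2) hx1 hx3 z hzC
  -- so it is the identity on `V`
  apply f₀.2.2
  refine ⟨f₀.2.1, N, hN1, ?_⟩
  filter_upwards [hVo.mem_nhds hf₀V] with y hy
  by_cases hyU : y ∈ U
  · exact (hloc y hy hyU).self_of_nhds
  · exact hSK y hy ⟨hVO hy, hyU⟩

/-- The same with a `C¹` inverse. -/
theorem exists_iterate_eq_of_inverse (h2 : Module.finrank ℝ E = 2) {Om : Set E}
    (ho : IsOpen Om) (hc : IsPreconnected Om) {G G' : E → E} (hm : MapsTo G Om Om)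
    (hG : ContDiffOn ℝ 1 G Om) (hG' : ContDiffOn ℝ 1 G' Om) (hinv : ∀ x ∈ Om, G' (G x) = x)
    (hper : ∀ x ∈ Om, ∃ n, 1 ≤ n ∧ G^[n] x = x) :
    ∃ n, 1 ≤ n ∧ ∀ x ∈ Om, G^[n] x = x := by
  refine exists_iterate_eq h2 ho hc hm hG ?_ hper
  intro x hx
  have hGx : DifferentiableAt ℝ G x := (hG.contDiffAt (ho.mem_nhds hx)).differentiableAt
    (by norm_num)
  have hG'x : DifferentiableAt ℝ G' (G x) :=
    (hG'.contDiffAt (ho.mem_nhds (hm hx))).differentiableAt (by norm_num)
  have h1 : fderiv ℝ (G' ∘ G) x = ContinuousLinearMap.id ℝ E := by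
    have : (G' ∘ G) =ᶠ[𝓝 x] id := by
      filter_upwards [ho.mem_nhds hx] with y hy
      exact hinv y hy
    rw [this.fderiv_eq, fderiv_id]
  rw [fderiv_comp x hG'x hGx] at h1
  have h3 := congrArg (fun A : E →L[ℝ] E => LinearMap.det (A : E →ₗ[ℝ] E)) h1
  change LinearMap.det ((fderiv ℝ G' (G x) : E →ₗ[ℝ] E) ∘ₗ (fderiv ℝ G x : E →ₗ[ℝ] E)) = _ at h3
  rw [LinearMap.det_comp] at h3
  intro h4
  have h5 : LinearMap.det (fderiv ℝ G x : E →ₗ[ℝ] E) = 0 := h4
  rw [h5, mul_zero] at h3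
  simp at h3

end Pool.Agent.Helper40.PP
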